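import Mathlib
import Pool.Agent.TH839.ZT.Stm

/-!
# Job 3253 (helper839, project ZT): NE, the zero-free region lemma

Borel-Caratheodory, Hadamard three lines in the variable `log w`, Cauchy estimate.
-/

set_option autoImplicit false

open Complex Filter Topology Set Metric
open scoped ComplexConjugate

namespace Pool.Agent.TH264.ZT

/-- Borel-Caratheodory and three circles: a small upper bound for the real part on a small disc and
a rough one on the big disc give a small bound near the boundary of the big disc -/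
lemma circ {g : ℂ → ℂ} {R δ A B : ℝ} (hR : 8 ≤ R) (hR' : R ≤ 10) (hδ : 0 < δ) (hδ1 : δ ≤ 1)
    (hA : 0 < A) (hB : 0 < B) (hAB : 12 * A ≤ 40 * B / δ)
    (hg : DifferentiableOn ℂ g (ball 0 R)) (h0 : g 0 = 0)
    (h1 : ∀ w ∈ ball (0 : ℂ) 7, (g w).re ≤ A) (h2 : ∀ w ∈ ball (0 : ℂ) R, (g w).re ≤ B)
    {w : ℂ} (hw : ‖w‖ ≤ R - 3 * δ / 4) :
    ‖g w‖ ≤ 40 * B / δ * (12 * A / (40 * B / δ)) ^ (δ / 40) := by
  have hb0 : 0 < 40 * B / δ := by positivity
  -- the inner circle
  have hin : ∀ z : ℂ, ‖z‖ ≤ 6 → ‖g z‖ ≤ 12 * A := by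
    intro z hz
    have hz7 : z ∈ ball (0 : ℂ) 7 := by rw [mem_ball_zero_iff]; linarith
    have h := borelCaratheodory_zero hA (hg.mono (ball_subset_ball (by linarith)))
      (fun x hx => h1 x hx) (by norm_num : (0 : ℝ) < 7) hz7 h0
    refine h.trans ?_
    rw [div_le_iff₀ (by linarith)]
    nlinarith [norm_nonneg z]
  -- the outer circle
  have hout : ∀ z : ℂ, ‖z‖ ≤ R - δ / 2 → ‖g z‖ ≤ 40 * B / δ := by
    intro z hz
    have hzR : z ∈ ball (0 : ℂ) R := by rw [mem_ball_zero_iff]; linarith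
    have h := borelCaratheodory_zero hB hg (fun x hx => h2 x hx) (by linarith) hzR h0
    refine h.trans ?_
    rw [div_le_div_iff₀ (by linarith) hδ]
    have e1 : 2 * B * ‖z‖ * δ ≤ 2 * B * 10 * δ := by
      have : ‖z‖ ≤ 10 := by linarith
      gcongr
    have e2 : 40 * B * (δ / 2) ≤ 40 * B * (R - ‖z‖) := by
      have : δ / 2 ≤ R - ‖z‖ := by linarith
      gcongr
    linarith
  have hq0 : 0 < 12 * A / (40 * B / δ) := by positivity
  have hq1 : 12 * A / (40 * B / δ) ≤ 1 := (div_le_one hb0).2 hAB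
  rcases le_or_gt ‖w‖ 6 with h6 | h6
  · refine (hin w h6).trans ?_
    have h3 : (12 * A / (40 * B / δ)) ^ (1 : ℝ) ≤ (12 * A / (40 * B / δ)) ^ (δ / 40) :=
      Real.rpow_le_rpow_of_exponent_ge hq0 hq1 (by linarith)
    rw [Real.rpow_one] at h3
    calc 12 * A = 40 * B / δ * (12 * A / (40 * B / δ)) := by field_simp
      _ ≤ _ := by gcongr
  · have hwne : w ≠ 0 := by
      intro h
      rw [h, norm_zero] at h6
      linarith
    have hl : Real.log 6 < Real.log (R - δ / 2) := Real.log_lt_log (by norm_num) (by linarith)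
    have hcs : ∀ z : ℂ, z ∈ HadamardThreeLines.verticalClosedStrip (Real.log 6)
        (Real.log (R - δ / 2)) → ‖cexp z‖ ≤ R - δ / 2 := by
      intro z hz
      rw [norm_exp, ← Real.le_log_iff_exp_le (by linarith)]
      exact hz.2
    have hd : ∀ z : ℂ, ‖cexp z‖ ≤ R - δ / 2 → DifferentiableAt ℂ (fun z => g (cexp z)) z := by
      intro z hz
      have hz' : cexp z ∈ ball (0 : ℂ) R := by rw [mem_ball_zero_iff]; linarith
      have h3 : DifferentiableAt ℂ g (cexp z) := hg.differentiableAt (isOpen_ball.mem_nhds hz')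
      exact h3.comp z Complex.differentiable_exp.differentiableAt
    have hdc : DiffContOnCl ℂ (fun z => g (cexp z)) (HadamardThreeLines.verticalStrip (Real.log 6)
        (Real.log (R - δ / 2))) := by
      apply DifferentiableOn.diffContOnCl
      intro z hz
      refine (hd z (hcs z ?_)).differentiableWithinAt
      have hcl : IsClosed (HadamardThreeLines.verticalClosedStrip (Real.log 6)
        (Real.log (R - δ / 2))) := by
        unfold HadamardThreeLines.verticalClosedStrip
        exact isClosed_Icc.preimage continuous_re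
      refine (closure_minimal ?_ hcl) hz
      intro x hx
      exact Ioo_subset_Icc_self hx
    have hz : Complex.log w ∈ HadamardThreeLines.verticalClosedStrip (Real.log 6)
        (Real.log (R - δ / 2)) := by
      show (Complex.log w).re ∈ Icc _ _
      rw [Complex.log_re]
      exact ⟨Real.log_le_log (by norm_num) h6.le, Real.log_le_log (by linarith) (by linarith)⟩
    have h3 := HadamardThreeLines.norm_le_interp_of_mem_verticalClosedStrip'
      (f := fun z => g (cexp z)) (a := 12 * A) (b := 40 * B / δ) hl hz hdc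
      ⟨40 * B / δ, by
        rintro _ ⟨z, hz, rfl⟩
        exact hout _ (hcs z hz)⟩
      (fun z hz => hin _ (by
        have : z.re = Real.log 6 := hz
        rw [norm_exp, this, Real.exp_log (by norm_num)]))
      (fun z hz => hout _ (by
        have : z.re = Real.log (R - δ / 2) := hz
        rw [norm_exp, this, Real.exp_log (by linarith)]))
    simp only [Complex.exp_log hwne, Complex.log_re] at h3
    refine h3.trans ?_
    obtain ⟨t, ht⟩ : ∃ t, t = (Real.log ‖w‖ - Real.log 6) / (Real.log (R - δ / 2) - Real.log 6) :=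
      ⟨_, rfl⟩
    rw [← ht]
    have hD : 0 < Real.log (R - δ / 2) - Real.log 6 := by linarith
    have hD1 : Real.log (R - δ / 2) - Real.log 6 ≤ 1 := by
      rw [← Real.log_div (by linarith) (by norm_num)]
      have := Real.log_le_sub_one_of_pos (show 0 < (R - δ / 2) / 6 by
        apply div_pos <;> linarith)
      have h4 : (R - δ / 2) / 6 ≤ 2 := by
        rw [div_le_iff₀ (by norm_num)]; linarith
      linarith
    have hN : δ / 40 ≤ Real.log (R - δ / 2) - Real.log ‖w‖ := by
      rw [← neg_sub, le_neg, ← Real.log_div (by linarith) (by linarith)]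
      have h4 := Real.log_le_sub_one_of_pos (show 0 < ‖w‖ / (R - δ / 2) by
        apply div_pos <;> linarith)
      refine h4.trans ?_
      rw [sub_le_iff_le_add, div_le_iff₀ (by linarith)]
      nlinarith
    have h1t : δ / 40 ≤ 1 - t := by
      have e : 1 - t = (Real.log (R - δ / 2) - Real.log ‖w‖) /
          (Real.log (R - δ / 2) - Real.log 6) := by
        rw [ht, eq_div_iff hD.ne', sub_mul, div_mul_cancel₀ _ hD.ne']
        ring
      rw [e, le_div_iff₀ hD]
      nlinarith
    have h5 : (12 * A) ^ (1 - t) * (40 * B / δ) ^ t =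
        40 * B / δ * (12 * A / (40 * B / δ)) ^ (1 - t) := by
      rw [Real.div_rpow (by positivity) hb0.le]
      have h6 : (40 * B / δ) ^ (1 - t) * (40 * B / δ) ^ t = 40 * B / δ := by
        rw [← Real.rpow_add hb0]
        simp
      have h7 : 0 < (40 * B / δ) ^ (1 - t) := Real.rpow_pos_of_pos hb0 _
      rw [mul_div_assoc', eq_div_iff h7.ne']
      calc (12 * A) ^ (1 - t) * (40 * B / δ) ^ t * (40 * B / δ) ^ (1 - t)
          = (12 * A) ^ (1 - t) * ((40 * B / δ) ^ (1 - t) * (40 * B / δ) ^ t) := by ring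
        _ = _ := by rw [h6]; ring
    rw [h5]
    have h8 : (12 * A / (40 * B / δ)) ^ (1 - t) ≤ (12 * A / (40 * B / δ)) ^ (δ / 40) :=
      Real.rpow_le_rpow_of_exponent_ge hq0 hq1 h1t
    gcongr

/-- the choice of `κ` -/
lemma choose_k {δ ε : ℝ} (hδ : 0 < δ) (hδ1 : δ ≤ 1) (hε : 0 < ε) : ∃ κ : ℝ, 0 < κ ∧ κ ≤ 1 ∧
    κ ≤ ε / 2 ∧ ∀ h : ℝ, 1 ≤ h →
      40 * (5 * h) / δ * (12 * (2 * κ * h) / (40 * (5 * h) / δ)) ^ (δ / 40) ≤ ε * δ / 4 * h := by
  obtain ⟨κ, hκ⟩ : ∃ κ, κ = min 1 (min (ε / 2) ((ε * δ ^ 2 / 800) ^ (40 / δ))) := ⟨_, rfl⟩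
  have hp : 0 < (ε * δ ^ 2 / 800) ^ (40 / δ) := Real.rpow_pos_of_pos (by positivity) _
  have hκ0 : 0 < κ := by
    rw [hκ]
    exact lt_min one_pos (lt_min (by positivity) hp)
  have hκ1 : κ ≤ 1 := by rw [hκ]; exact min_le_left _ _
  have hκ2 : κ ≤ ε / 2 := by rw [hκ]; exact (min_le_right _ _).trans (min_le_left _ _)
  have hκ3 : κ ≤ (ε * δ ^ 2 / 800) ^ (40 / δ) := by
    rw [hκ]; exact (min_le_right _ _).trans (min_le_right _ _)
  refine ⟨κ, hκ0, hκ1, hκ2, fun h hh => ?_⟩
  have hh0 : 0 < h := by linarith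
  have e1 : 12 * (2 * κ * h) / (40 * (5 * h) / δ) = 3 * κ * δ / 25 := by
    field_simp
    ring
  rw [e1]
  have h1 : 3 * κ * δ / 25 ≤ (ε * δ ^ 2 / 800) ^ (40 / δ) := by
    refine le_trans ?_ hκ3
    nlinarith [mul_pos hκ0 hδ]
  have h2 : (3 * κ * δ / 25) ^ (δ / 40) ≤ ε * δ ^ 2 / 800 := by
    calc (3 * κ * δ / 25) ^ (δ / 40) ≤ ((ε * δ ^ 2 / 800) ^ (40 / δ)) ^ (δ / 40) :=
          Real.rpow_le_rpow (by positivity) h1 (by positivity)
      _ = (ε * δ ^ 2 / 800) ^ ((40 / δ) * (δ / 40)) := (Real.rpow_mul (by positivity) _ _).symm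
      _ = ε * δ ^ 2 / 800 := by
        rw [show (40 / δ) * (δ / 40) = 1 by field_simp, Real.rpow_one]
  calc 40 * (5 * h) / δ * (3 * κ * δ / 25) ^ (δ / 40)
      ≤ 40 * (5 * h) / δ * (ε * δ ^ 2 / 800) := by gcongr
    _ = ε * δ / 4 * h := by
      field_simp
      ring

/-- a nonvanishing function on a ball is an exponential, relative to `exp (h w)` -/
lemma expo {F : ℂ → ℂ} {c : ℂ} {R h : ℝ} (hR : 0 < R) (hF : Differentiable ℂ F)
    (hne : ∀ w ∈ ball c R, F w ≠ 0) : ∃ G : ℂ → ℂ, G c = 0 ∧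
      (∀ w ∈ ball c R, HasDerivAt G (deriv F w / F w - h) w) ∧
      ∀ w ∈ ball c R, F w = F c * cexp (h * (w - c) + G w) := by
  have hd : DifferentiableOn ℂ (fun w => deriv F w / F w - h) (ball c R) := by
    intro w hw
    have h1 : DifferentiableAt ℂ (deriv F) w := (hF.deriv).differentiableAt
    exact ((h1.fun_div hF.differentiableAt (hne w hw)).sub_const _).differentiableWithinAt
  obtain ⟨G, hGc, hG⟩ := hd.isExactOn_ball.with_val_at c (0 : ℂ)
  refine ⟨G, hGc, hG, fun w hw => ?_⟩
  have hcb : c ∈ ball c R := mem_ball_self hR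
  obtain ⟨Φ, hΦ⟩ : ∃ Φ : ℂ → ℂ, Φ = fun w => F w * cexp (-(h * (w - c) + G w)) := ⟨_, rfl⟩
  have hΦd : ∀ w ∈ ball c R, HasDerivAt Φ 0 w := by
    intro w hw
    have h1 : HasDerivAt (fun w : ℂ => (h : ℂ) * (w - c)) ((h : ℂ) * 1) w :=
      ((hasDerivAt_id w).sub_const c).const_mul _
    have h2 : HasDerivAt (fun w : ℂ => -((h : ℂ) * (w - c) + G w))
        (-((h : ℂ) * 1 + (deriv F w / F w - h))) w := (h1.add (hG w hw)).neg
    have h3 := (hF w).hasDerivAt.fun_mul h2.cexp
    rw [hΦ]
    have h4 : deriv F w * cexp (-((h : ℂ) * (w - c) + G w)) + F w * (cexp (-((h : ℂ) * (w - c) +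
        G w)) * (-((h : ℂ) * 1 + (deriv F w / F w - h)))) = 0 := by
      have := hne w hw
      field_simp
      ring
    rwa [h4] at h3
  have hconst : Φ w = Φ c := by
    have hconv : Convex ℝ (ball c R) := convex_ball c R
    refine hconv.is_const_of_fderivWithin_eq_zero (𝕜 := ℂ) (f := Φ) ?_ ?_ hw hcb
    · intro x hx
      exact (hΦd x hx).differentiableAt.differentiableWithinAt
    · intro x hx
      rw [fderivWithin_of_isOpen isOpen_ball hx]
      have := (hΦd x hx).hasFDerivAt.fderiv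
      rw [this]
      ext
      simp
  rw [hΦ] at hconst
  simp only [sub_self, mul_zero, hGc, add_zero, neg_zero, Complex.exp_zero, mul_one] at hconst
  rw [← hconst, mul_assoc, ← Complex.exp_add, neg_add_cancel, Complex.exp_zero, mul_one]

theorem ne : Pool.Agent.TH839.ZT.S_NE := by
  intro δ ε hδ hδ1 hε
  obtain ⟨κ, hκ0, hκ1, hκε, hκ⟩ := choose_k hδ hδ1 hε
  refine ⟨κ, hκ0, ?_⟩
  intro h P η F hh hP hη0 hη2 hF hne hup hlow u hu1 hu2 hu3
  have hh0 : 0 < h := by linarith
  obtain ⟨c, hc⟩ : ∃ c : ℂ, c = ⟨10, u.im⟩ := ⟨_, rfl⟩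
  have hcre : c.re = 10 := by rw [hc]
  have hcim : c.im = u.im := by rw [hc]
  have hcn : ‖c‖ ≤ 11 := by
    refine (Complex.norm_le_abs_re_add_abs_im c).trans ?_
    rw [hcre, hcim, abs_of_pos (by norm_num)]
    linarith
  obtain ⟨R, hRd⟩ : ∃ R, R = 10 - η := ⟨_, rfl⟩
  have hR8 : 8 ≤ R := by linarith
  have hR10 : R ≤ 10 := by linarith
  have hbre : ∀ (w : ℂ) (r : ℝ), ‖w - c‖ < r → 10 - r < w.re := by
    intro w r hw
    have h1 := (Complex.abs_re_le_norm (w - c)).trans_lt hw
    rw [sub_re, hcre] at h1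
    have := (abs_lt.1 h1).1
    linarith
  have hbim : ∀ (w : ℂ), ‖w - c‖ < 10 → |w.im| ≤ 20 := by
    intro w hw
    have h1 := (Complex.abs_im_le_norm (w - c)).trans_lt hw
    rw [sub_im, hcim] at h1
    have h2 : |w.im| ≤ |w.im - u.im| + |u.im| := by
      have := abs_add_le (w.im - u.im) u.im
      rwa [sub_add_cancel] at this
    linarith
  have hbn : ∀ (w : ℂ), ‖w - c‖ < 10 → ‖w‖ ≤ 40 := by
    intro w hw
    have h1 := norm_add_le (w - c) c
    rw [sub_add_cancel] at h1
    linarith
  have hneb : ∀ w ∈ ball c R, F w ≠ 0 := by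
    intro w hw
    rw [mem_ball, dist_eq_norm] at hw
    refine hne w ?_ (hbim w (by linarith))
    have := hbre w R hw
    linarith
  obtain ⟨G, hGc, hGd, hGe⟩ := expo (h := h) (by linarith : 0 < R) hF hneb
  have hcb : c ∈ ball c R := mem_ball_self (by linarith)
  have hFc0 : 0 < ‖F c‖ := norm_pos_iff.2 (hneb c hcb)
  have hFc1 : ‖F c‖ ≤ P * Real.exp (h * 10 + κ * h) := by
    have := hup c (by linarith)
    rw [hcre, abs_of_pos (by norm_num), max_eq_left (by norm_num)] at this
    exact this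
  have hFc2 : P * Real.exp (h * 10 - κ * h) ≤ ‖F c‖ := by
    have := hlow c (by rw [hcre]; norm_num) (by linarith)
    rw [hcre] at this
    exact this
  have hnorm : ∀ w ∈ ball c R, ‖F w‖ = ‖F c‖ * Real.exp (h * (w.re - 10) + (G w).re) := by
    intro w hw
    conv_lhs => rw [hGe w hw]
    rw [norm_mul, norm_exp]
    congr 2
    simp [hcre]
  -- the real part is bounded
  have hreG : ∀ w ∈ ball c R, (G w).re ≤ h * max |w.re| 3 + κ * h - h * w.re + κ * h := by
    intro w hw
    have hw' : ‖w - c‖ < 10 := by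
      rw [mem_ball, dist_eq_norm] at hw
      linarith
    have h1 := hup w (hbn w hw')
    rw [hnorm w hw] at h1
    have h2 : P * Real.exp (h * 10 - κ * h) * Real.exp (h * (w.re - 10) + (G w).re) ≤
        P * Real.exp (h * max |w.re| 3 + κ * h) := le_trans (by gcongr) h1
    rw [mul_assoc, ← Real.exp_add] at h2
    have h3 := (mul_le_mul_iff_right₀ hP).1 h2
    have h4 := Real.exp_le_exp.1 h3
    linarith
  have key : ∀ w : ℂ, ‖w‖ ≤ R - 3 * δ / 4 → ‖G (c + w)‖ ≤ ε * δ / 4 * h := by
    intro w hw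
    have hmem : ∀ z ∈ ball (0 : ℂ) R, c + z ∈ ball c R := by
      intro z hz
      rw [mem_ball, dist_eq_norm, add_sub_cancel_left]
      rwa [mem_ball_zero_iff] at hz
    refine (circ (g := fun z => G (c + z)) (R := R) (δ := δ) (A := 2 * κ * h) (B := 5 * h) hR8
      hR10 hδ hδ1 (by positivity) (by positivity) ?_ ?_ ?_ ?_ ?_ hw).trans (hκ h hh)
    · rw [le_div_iff₀ hδ]
      nlinarith [mul_pos hκ0 hh0, mul_nonneg hh0.le (sub_nonneg.2 hκ1),
        mul_nonneg (mul_pos hκ0 hh0).le (sub_nonneg.2 hδ1)]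
    · intro z hz
      have h1 : HasDerivAt (fun z : ℂ => c + z) 1 z := (hasDerivAt_id z).const_add c
      exact (HasDerivAt.comp z (hGd _ (hmem z hz)) h1).differentiableAt.differentiableWithinAt
    · show G (c + 0) = 0
      rw [add_zero, hGc]
    · intro z hz
      have hz' : ‖z‖ < 7 := by rwa [mem_ball_zero_iff] at hz
      have h1 := hreG (c + z) (hmem z (ball_subset_ball (by linarith) hz))
      have h2 : 3 < (c + z).re := by
        have := hbre (c + z) 7 (by rwa [add_sub_cancel_left])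
        linarith
      rw [abs_of_pos (by linarith), max_eq_left h2.le] at h1
      show (G (c + z)).re ≤ _
      linarith
    · intro z hz
      have hz' : ‖z‖ < R := by rwa [mem_ball_zero_iff] at hz
      have h1 := hreG (c + z) (hmem z hz)
      have h2 : 0 < (c + z).re := by
        have := hbre (c + z) R (by rwa [add_sub_cancel_left])
        linarith
      have h3 : max |(c + z).re| 3 ≤ (c + z).re + 3 := by
        rw [abs_of_pos h2]
        exact max_le (by linarith) (by linarith)
      have h4 : h * max |(c + z).re| 3 ≤ h * ((c + z).re + 3) := by gcongr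
      have h5 : κ * h ≤ 1 * h := by gcongr
      show (G (c + z)).re ≤ _
      linarith
  -- the point u
  have huc : ‖u - c‖ ≤ R - δ := by
    have e : u - c = ((u.re - 10 : ℝ) : ℂ) := by
      apply Complex.ext
      · simp [hcre]
      · simp [hcim]
    rw [e, norm_real, Real.norm_eq_abs, abs_le]
    constructor <;> linarith
  have hub : u ∈ ball c R := by
    rw [mem_ball, dist_eq_norm]
    linarith
  have hGu : ‖G u‖ ≤ ε * δ / 4 * h := by
    have := key (u - c) (by linarith)
    rwa [add_sub_cancel] at this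
  have hGu2 : ‖G u‖ ≤ ε / 2 * h := by
    refine hGu.trans ?_
    have : ε * δ / 4 ≤ ε / 2 := by nlinarith
    gcongr
  have hκh : κ * h ≤ ε / 2 * h := by gcongr
  have hre1 := (abs_le.1 (Complex.abs_re_le_norm (G u))).1
  have hre2 := (abs_le.1 (Complex.abs_re_le_norm (G u))).2
  refine ⟨?_, ?_, ?_⟩
  · rw [hnorm u hub]
    calc P * Real.exp (h * u.re - ε * h)
        ≤ P * Real.exp ((h * 10 - κ * h) + (h * (u.re - 10) + (G u).re)) := by
          have : h * u.re - ε * h ≤ (h * 10 - κ * h) + (h * (u.re - 10) + (G u).re) := by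
            nlinarith
          gcongr
      _ = P * Real.exp (h * 10 - κ * h) * Real.exp (h * (u.re - 10) + (G u).re) := by
          rw [Real.exp_add]; ring
      _ ≤ _ := by gcongr
  · rw [hnorm u hub]
    calc ‖F c‖ * Real.exp (h * (u.re - 10) + (G u).re)
        ≤ P * Real.exp (h * 10 + κ * h) * Real.exp (h * (u.re - 10) + (G u).re) := by gcongr
      _ = P * Real.exp ((h * 10 + κ * h) + (h * (u.re - 10) + (G u).re)) := by
          rw [Real.exp_add (h * 10 + κ * h)]; ring
      _ ≤ _ := by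
          have : (h * 10 + κ * h) + (h * (u.re - 10) + (G u).re) ≤ h * u.re + ε * h := by
            nlinarith
          gcongr
  · rw [← (hGd u hub).deriv]
    have hball : ∀ z, dist z u ≤ δ / 4 → ‖z - c‖ ≤ R - 3 * δ / 4 := by
      intro z hz
      rw [dist_eq_norm] at hz
      have := norm_add_le (z - u) (u - c)
      rw [sub_add_sub_cancel] at this
      linarith
    have h1 := Complex.norm_deriv_le_of_forall_mem_sphere_norm_le (c := u) (R := δ / 4)
      (C := ε * δ / 4 * h) (f := G) (by positivity) ?_ ?_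
    · refine h1.trans (le_of_eq ?_)
      field_simp
    · apply DifferentiableOn.diffContOnCl
      rw [closure_ball _ (by positivity)]
      intro z hz
      have h2 := hball z (mem_closedBall.1 hz)
      refine (hGd z ?_).differentiableAt.differentiableWithinAt
      rw [mem_ball, dist_eq_norm]
      linarith
    · intro z hz
      have h2 := hball z (le_of_eq (mem_sphere.1 hz))
      have := key (z - c) h2
      rwa [add_sub_cancel] at this

end Pool.Agent.TH264.ZT
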